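import Pool.Agent.H26.GN.Nec
import Pool.Agent.H26.GN.Qb

/-!
MP_78d38b_GN (helper95): abstract assembly of the structure `Nec` (the last step of the NT part of the necessity).
`r i` and `u i` are the functionals at the places of `N` chosen above the primes of `T`; `act` is the action of the group.
-/

set_option autoImplicit false
open scoped Classical

namespace H95GN

open H26GN
open H26OD (RG coeff_eq_tau)

variable {G V : Type} [Group G]

private theorem coeff_of_mul' (k g : G) (h : RG G) :
    (MonoidAlgebra.of (ZMod 2) G k * h).coeff g = h.coeff (k⁻¹ * g) := by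
  rw [coeff_eq_tau, coeff_eq_tau, ← mul_assoc, ← map_mul, mul_inv_rev, inv_inv]

private theorem card_RG (G : Type) [Group G] [Finite G] : Nat.card (RG G) = 2 ^ Nat.card G := by
  have e : RG G ≃ (G → ZMod 2) :=
    ⟨fun a g => a.coeff g, fun f => H88OD.mk f, fun a => by ext g; rfl, fun f => rfl⟩
  rw [Nat.card_congr e, Nat.card_fun, Nat.card_zmod]

theorem nec_of [Finite G] [Fintype G] [AddCommGroup V] {act : G → V → V}
    (a1 : ∀ x, act 1 x = x) (amul : ∀ g h x, act (g * h) x = act g (act h x))
    (aadd : ∀ g x y, act g (x + y) = act g x + act g y)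
    {W Y : AddSubgroup V} (stb : ∀ g, ∀ y ∈ Y, act g y ∈ Y)
    {ι : Type} [Fintype ι] {m : ℕ} (hm : Fintype.card ι = 2 * m)
    (r u : ι → V →+ ZMod 2)
    (hker : ∀ y ∈ Y, (∀ i g, r i (act g y) = 0) → y = 0)
    (hcard : 2 ^ (Nat.card G * Fintype.card ι) ≤ Nat.card Y)
    (hW : ∀ x, x ∈ W ↔ x ∈ Y ∧ ∀ i g, u i (act g x) = 0)
    (hQ : ∀ y ∈ Y, ∑ i, ∑ g, r i (act g y) * u i (act g y) = 0)
    (hinv : ∀ g : G, g * g = 1 → g ≠ 1 → ∀ y ∈ Y,
      ∑ i, ∑ h, r i (act h y) * u i (act h (act g y)) = 0) :
    Nonempty (Nec act W) := by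
  obtain ⟨e⟩ : Nonempty (Fin m ⊕ Fin m ≃ ι) :=
    ⟨Fintype.equivOfCardEq (by rw [Fintype.card_sum, Fintype.card_fin, hm, two_mul])⟩
  -- the form
  obtain ⟨om, hom⟩ : ∃ om : V → V → ZMod 2, ∀ x y,
      om x y = ∑ i, ∑ g, r i (act g x) * u i (act g y) := ⟨_, fun _ _ => rfl⟩
  have oaddl : ∀ x x' y, om (x + x') y = om x y + om x' y := by
    intro x x' y
    rw [hom, hom, hom, ← Finset.sum_add_distrib]
    refine Finset.sum_congr rfl fun i _ => ?_
    rw [← Finset.sum_add_distrib]
    refine Finset.sum_congr rfl fun g _ => ?_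
    rw [aadd, map_add, add_mul]
  have oaddr : ∀ x y y', om x (y + y') = om x y + om x y' := by
    intro x y y'
    rw [hom, hom, hom, ← Finset.sum_add_distrib]
    refine Finset.sum_congr rfl fun i _ => ?_
    rw [← Finset.sum_add_distrib]
    refine Finset.sum_congr rfl fun g _ => ?_
    rw [aadd, map_add, mul_add]
  have osq : ∀ y ∈ Y, om y y = 0 := fun y hy => by rw [hom]; exact hQ y hy
  have osym : ∀ x ∈ Y, ∀ y ∈ Y, om x y = om y x := by
    intro x hx y hy
    have h1 := osq (x + y) (Y.add_mem hx hy)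
    rw [oaddl, oaddr, oaddr, osq x hx, osq y hy, zero_add, add_zero] at h1
    exact CharTwo.add_eq_zero.1 h1
  -- the coordinates
  obtain ⟨R, hR⟩ : ∃ R : V → Fin m ⊕ Fin m → RG G, ∀ x j g,
      (R x j).coeff g = r (e j) (act g⁻¹ x) :=
    ⟨fun x j => H88OD.mk fun g => r (e j) (act g⁻¹ x), fun x j g => H88OD.coeff_mk _ g⟩
  have Radd : ∀ x y i, R (x + y) i = R x i + R y i := by
    intro x y i
    ext g
    rw [MonoidAlgebra.coeff_add, Finsupp.add_apply, hR, hR, hR, aadd, map_add]
  have Rinj : ∀ x ∈ Y, (∀ i, R x i = 0) → x = 0 := by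
    intro x hx h
    refine hker x hx fun i g => ?_
    have h1 := hR x (e.symm i) g⁻¹
    rw [h, e.apply_symm_apply, inv_inv] at h1
    exact h1.symm
  have Rinj' : Function.Injective fun (y : Y) => R (y : V) := by
    intro x y hxy
    apply Subtype.ext
    have h1 := Rinj ((x : V) - y) (Y.sub_mem x.2 y.2) fun i => by
      have h2 := Radd ((x : V) - y) y i
      rw [sub_add_cancel] at h2
      have h3 : R (x : V) i = R (y : V) i := congrFun hxy i
      rw [h3] at h2
      exact right_eq_add.1 h2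
    exact sub_eq_zero.1 h1
  have hfin : Finite Y := Nat.finite_of_card_ne_zero (by
    have : 0 < 2 ^ (Nat.card G * Fintype.card ι) := by positivity
    omega)
  have hcardX : Nat.card (Fin m ⊕ Fin m → RG G) = 2 ^ (Nat.card G * Fintype.card ι) := by
    rw [Nat.card_fun, card_RG, ← pow_mul, Nat.card_eq_fintype_card (α := Fin m ⊕ Fin m),
      Fintype.card_congr e]
  have Rbij : Function.Bijective fun (y : Y) => R (y : V) := by
    refine (Nat.bijective_iff_injective_and_card _).2 ⟨Rinj', le_antisymm ?_ ?_⟩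
    · exact Nat.card_le_card_of_injective _ Rinj'
    · rw [hcardX]
      exact hcard
  have Rsurj : ∀ a : Fin m ⊕ Fin m → RG G, ∃ y ∈ Y, ∀ i, R y i = a i := by
    intro a
    obtain ⟨y, hy⟩ := Rbij.2 a
    exact ⟨y, y.2, fun i => congrFun hy i⟩
  refine ⟨⟨Y, stb, m, R, fun x _ y _ i => Radd x y i, Rinj, Rsurj, ?_, om,
    fun x _ x' _ y _ => oaddl x x' y, osym, ?_, ?_, ?_⟩⟩
  · intro g y _ i
    ext k
    rw [coeff_of_mul', hR, hR, ← amul, mul_inv_rev, inv_inv]
  · intro g x _ y _
    rw [hom, hom]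
    refine Finset.sum_congr rfl fun i _ => ?_
    refine Fintype.sum_equiv (Equiv.mulRight g) _ _ fun h => ?_
    change _ = r i (act (h * g) x) * u i (act (h * g) y)
    rw [amul, amul]
  · intro g hg x hx
    by_cases h1 : g = 1
    · rw [h1, a1]
      exact osq x hx
    · rw [hom]
      exact hinv g hg h1 x hx
  · intro x
    rw [hW]
    refine and_congr_right fun hx => ⟨fun h y _ => ?_, fun h i g => ?_⟩
    · rw [hom]
      refine Finset.sum_eq_zero fun i _ => Finset.sum_eq_zero fun g _ => ?_
      rw [h, mul_zero]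
    · obtain ⟨y, hy, hRy⟩ := Rsurj fun j => if e j = i then MonoidAlgebra.of (ZMod 2) G g⁻¹ else 0
      have h1 := h y hy
      have h2 : ∀ i' g', r i' (act g' y) = if i' = i ∧ g' = g then 1 else 0 := by
        intro i' g'
        have h3 := hR y (e.symm i') g'⁻¹
        rw [e.apply_symm_apply, inv_inv] at h3
        rw [← h3, hRy, e.apply_symm_apply]
        by_cases hi : i' = i
        · rw [if_pos hi, MonoidAlgebra.of_apply, MonoidAlgebra.coeff_single, Finsupp.single_apply]
          by_cases hg : g' = g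
          · rw [if_pos (by rw [hg]), if_pos ⟨hi, hg⟩]
          · rw [if_neg (fun h => hg (inv_injective h).symm), if_neg (fun h => hg h.2)]
        · rw [if_neg hi, if_neg (fun h => hi h.1)]
          rfl
      rw [hom, Finset.sum_eq_single i, Finset.sum_eq_single g, h2, if_pos ⟨rfl, rfl⟩, one_mul] at h1
      · exact h1
      · intro g' _ hg'
        rw [h2, if_neg (fun h => hg' h.2), zero_mul]
      · intro h
        exact absurd (Finset.mem_univ _) h
      · intro i' _ hi'
        refine Finset.sum_eq_zero fun g' _ => ?_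
        rw [h2, if_neg (fun h => hi' h.1), zero_mul]
      · intro h
        exact absurd (Finset.mem_univ _) h

end H95GN
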