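import Pool.Agent.H49.GN.If
import Pool.Agent.H26.GN.Qb
import Pool.Agent.H88.OD.St

/-!
MP_78d38b_GN (helper95): part (a) of the algebra part of the necessity.
An invariant symmetric form on a free module over `F_2[G]` with `om (x, g x) = 0` for the `g` with `g ^ 2 = 1` is given by a
matrix `c + c*`.
-/

set_option autoImplicit false
open scoped Classical

namespace H95GN

open H26GN H49GN
open H26OD (RG rg_induction coeff_eq_tau coeff_st)

variable {G I : Type} [Group G]

/-- Additive functionals on the free module are determined by their values on the group elements. -/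
private theorem hom_ext2 [Fintype I] [DecidableEq I] {f₁ f₂ : (I → RG G) →+ ZMod 2}
    (h : ∀ i g, f₁ (Pi.single i (MonoidAlgebra.of (ZMod 2) G g)) =
      f₂ (Pi.single i (MonoidAlgebra.of (ZMod 2) G g))) : f₁ = f₂ := by
  refine AddMonoidHom.functions_ext _ _ _ fun i x => ?_
  induction x using H26OD.rg_induction with
  | h0 => rw [Pi.single_zero, map_zero, map_zero]
  | hof g => exact h i g
  | hadd a b ha hb => rw [Pi.single_add, map_add, map_add, ha, hb]

private theorem coeff_of_mul (k g : G) (h : RG G) :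
    (MonoidAlgebra.of (ZMod 2) G k * h).coeff g = h.coeff (k⁻¹ * g) := by
  rw [coeff_eq_tau, coeff_eq_tau, ← mul_assoc, ← map_mul, mul_inv_rev, inv_inv]

private theorem coeff_sum [Fintype I] (f : I → RG G) (g : G) :
    (∑ i, f i).coeff g = ∑ i, (f i).coeff g := by
  rw [MonoidAlgebra.coeff_sum, Finsupp.finsetSum_apply]

/-- A symmetric matrix with the condition at the involutions is of the form `c + c*`. -/
private theorem exists_half [Finite G] [Fintype I] (h : I → I → RG G) (hst : ∀ i j, st (h j i) = h i j)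
    (hinv : ∀ i (g : G), g * g = 1 → (h i i).coeff g = 0) :
    ∃ c : I → I → RG G, ∀ i j, sym c i j = h i j := by
  obtain ⟨o, ho⟩ : ∃ o : I → ℕ, Function.Injective o :=
    ⟨fun i => (Fintype.equivFin I i : ℕ), fun i j hij => (Fintype.equivFin I).injective (Fin.ext hij)⟩
  obtain ⟨p, hp⟩ : ∃ p : G → ℕ, Function.Injective p :=
    ⟨fun i => (Finite.equivFin G i : ℕ), fun i j hij => (Finite.equivFin G).injective (Fin.ext hij)⟩
  refine ⟨fun i j => if o i < o j then h i j else if i = j then
    H88OD.mk (fun g => if p g < p g⁻¹ then (h i i).coeff g else 0) else 0, fun i j => ?_⟩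
  unfold sym
  rcases lt_trichotomy (o i) (o j) with hij | hij | hij
  · have h1 : ¬ (o j < o i) := by omega
    have h2 : ¬ (j = i) := fun h => by
      rw [h] at hij
      exact lt_irrefl _ hij
    simp only [if_pos hij, if_neg h1, if_neg h2, st_zero, add_zero]
  · obtain rfl := ho hij
    simp only [lt_irrefl, if_false, if_true]
    ext g
    have hs : (h i i).coeff g⁻¹ = (h i i).coeff g := by
      have h1 := congrArg (fun x : RG G => x.coeff g) (hst i i)
      exact h1
    change (if p g < p g⁻¹ then (h i i).coeff g else 0) +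
      (if p g⁻¹ < p g⁻¹⁻¹ then (h i i).coeff g⁻¹ else 0) = _
    rw [inv_inv, hs]
    rcases lt_trichotomy (p g) (p g⁻¹) with hg | hg | hg
    · rw [if_pos hg, if_neg (by omega), add_zero]
    · rw [if_neg (by omega), if_neg (by omega), add_zero]
      refine (hinv i g ?_).symm
      have h1 := hp hg
      calc g * g = g * g⁻¹ := by rw [← h1]
        _ = 1 := mul_inv_cancel g
    · rw [if_neg (by omega), if_pos hg, zero_add]
  · have h1 : ¬ (o i < o j) := by omega
    have h2 : ¬ (i = j) := fun h => by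
      rw [h] at hij
      exact lt_irrefl _ hij
    simp only [if_pos hij, if_neg h1, if_neg h2, zero_add, hst]

/-- Part (a). -/
theorem exists_c {V : Type} [Finite G] [AddCommGroup V] {act : G → V → V}
    {W : AddSubgroup V} (h : Nec act W) :
    ∃ c : Fin h.m ⊕ Fin h.m → Fin h.m ⊕ Fin h.m → RG G,
      ∀ y ∈ h.Y, (y ∈ W ↔ h.R y ∈ KM (sym c)) := by
  have hinj : ∀ x ∈ h.Y, ∀ y ∈ h.Y, (∀ i, h.R x i = h.R y i) → x = y := by
    intro x hx y hy hxy
    have h1 := h.Rinj (x - y) (h.Y.sub_mem hx hy) fun i => by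
      have h2 := h.Radd (x - y) (h.Y.sub_mem hx hy) y hy i
      rw [sub_add_cancel, hxy i] at h2
      exact (right_eq_add.1 h2)
    exact sub_eq_zero.1 h1
  choose J hJY hJ using h.Rsurj
  have Jadd : ∀ a b, J (a + b) = J a + J b := fun a b =>
    hinj _ (hJY _) _ (h.Y.add_mem (hJY a) (hJY b)) fun i => by
      rw [hJ, h.Radd _ (hJY a) _ (hJY b), hJ, hJ, Pi.add_apply]
  have Jact : ∀ (g : G) a, J (fun i => MonoidAlgebra.of (ZMod 2) G g * a i) = act g (J a) :=
    fun g a => hinj _ (hJY _) _ (h.stb g _ (hJY a)) fun i => by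
      rw [hJ, h.Ract g _ (hJY a), hJ]
  have JR : ∀ y ∈ h.Y, J (h.R y) = y := fun y hy => hinj _ (hJY _) _ hy fun i => hJ _ i
  -- the form
  obtain ⟨w, hw⟩ : ∃ w : ((Fin h.m ⊕ Fin h.m) → RG G) → ((Fin h.m ⊕ Fin h.m) → RG G) → ZMod 2,
      ∀ a b, w a b = h.om (J a) (J b) := ⟨fun a b => h.om (J a) (J b), fun _ _ => rfl⟩
  have wadd : ∀ a a' b, w (a + a') b = w a b + w a' b := fun a a' b => by
    rw [hw, hw, hw, Jadd, h.oadd _ (hJY a) _ (hJY a') _ (hJY b)]
  have wsym : ∀ a b, w a b = w b a := fun a b => by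
    rw [hw, hw, h.osym _ (hJY a) _ (hJY b)]
  have wadd' : ∀ a b b', w a (b + b') = w a b + w a b' := fun a b b' => by
    rw [wsym, wadd, wsym b, wsym b']
  have wact : ∀ (g : G) a b, w (fun i => MonoidAlgebra.of (ZMod 2) G g * a i)
      (fun i => MonoidAlgebra.of (ZMod 2) G g * b i) = w a b := fun g a b => by
    rw [hw, hw, Jact, Jact, h.oact g _ (hJY a) _ (hJY b)]
  have winv : ∀ (g : G) a, g * g = 1 → w a (fun i => MonoidAlgebra.of (ZMod 2) G g * a i) = 0 :=
    fun g a hg => by rw [hw, Jact, h.oinv g hg _ (hJY a)]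
  -- group elements
  have hsg : ∀ (g k : G) (i : Fin h.m ⊕ Fin h.m),
      (fun j => MonoidAlgebra.of (ZMod 2) G g *
        (Pi.single i (MonoidAlgebra.of (ZMod 2) G k) : (Fin h.m ⊕ Fin h.m) → RG G) j) =
        Pi.single i (MonoidAlgebra.of (ZMod 2) G (g * k)) := by
    intro g k i
    funext j
    by_cases hij : j = i
    · subst hij
      rw [Pi.single_eq_same, Pi.single_eq_same, map_mul]
    · rw [Pi.single_eq_of_ne hij, Pi.single_eq_of_ne hij, mul_zero]
  have wgg : ∀ (i j : Fin h.m ⊕ Fin h.m) (g k : G),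
      w (Pi.single i (MonoidAlgebra.of (ZMod 2) G g)) (Pi.single j (MonoidAlgebra.of (ZMod 2) G k)) =
        w (Pi.single i (MonoidAlgebra.of (ZMod 2) G 1))
          (Pi.single j (MonoidAlgebra.of (ZMod 2) G (g⁻¹ * k))) := by
    intro i j g k
    have h1 := wact g (Pi.single i (MonoidAlgebra.of (ZMod 2) G 1))
      (Pi.single j (MonoidAlgebra.of (ZMod 2) G (g⁻¹ * k)))
    rw [hsg, hsg, mul_one, mul_inv_cancel_left] at h1
    exact h1
  obtain ⟨M, hM⟩ : ∃ M : (Fin h.m ⊕ Fin h.m) → (Fin h.m ⊕ Fin h.m) → RG G, ∀ i j g,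
      (M i j).coeff g = w (Pi.single i (MonoidAlgebra.of (ZMod 2) G 1))
        (Pi.single j (MonoidAlgebra.of (ZMod 2) G g)) :=
    ⟨fun i j => H88OD.mk fun g => w (Pi.single i (MonoidAlgebra.of (ZMod 2) G 1))
        (Pi.single j (MonoidAlgebra.of (ZMod 2) G g)), fun i j g => H88OD.coeff_mk _ g⟩
  obtain ⟨c, hc⟩ := exists_half M (fun i j => by
    ext g
    change (M j i).coeff g⁻¹ = _
    rw [hM, hM, wsym, wgg, inv_inv, mul_one]) (fun i g hg => by
    rw [hM]
    have h1 := winv g (Pi.single i (MonoidAlgebra.of (ZMod 2) G 1)) hg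
    rw [hsg, mul_one] at h1
    exact h1)
  refine ⟨c, fun y hy => ?_⟩
  have hform : ∀ a j g, w a (Pi.single j (MonoidAlgebra.of (ZMod 2) G g)) =
      (∑ i, a i * M i j).coeff g := by
    intro a j g
    have h1 : (AddMonoidHom.mk' (fun a => w a (Pi.single j (MonoidAlgebra.of (ZMod 2) G g)))
        (fun a a' => wadd a a' _) : ((Fin h.m ⊕ Fin h.m) → RG G) →+ ZMod 2) =
        AddMonoidHom.mk' (fun a => (∑ i, a i * M i j).coeff g) (fun a a' => by
          simp only [Pi.add_apply, add_mul, Finset.sum_add_distrib, MonoidAlgebra.coeff_add,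
            Finsupp.add_apply]) := by
      apply hom_ext2
      intro i k
      change w (Pi.single i (MonoidAlgebra.of (ZMod 2) G k)) _ =
        (∑ i', (Pi.single i (MonoidAlgebra.of (ZMod 2) G k) :
          (Fin h.m ⊕ Fin h.m) → RG G) i' * M i' j).coeff g
      rw [Finset.sum_eq_single i (fun i' _ hi' => by rw [Pi.single_eq_of_ne hi', zero_mul])
        (fun h => absurd (Finset.mem_univ i) h), Pi.single_eq_same, coeff_of_mul, wgg, hM]
    exact DFunLike.congr_fun h1 a
  have hker : h.R y ∈ KM (sym c) ↔ ∀ j g,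
      w (h.R y) (Pi.single j (MonoidAlgebra.of (ZMod 2) G g)) = 0 := by
    rw [mem_KM]
    constructor
    · intro h1 j g
      rw [hform]
      have h2 := h1 j
      simp only [hc] at h2
      rw [h2]
      rfl
    · intro h1 j
      simp only [hc]
      ext g
      rw [← hform, h1]
      rfl
  rw [hker, h.rad]
  constructor
  · intro h1 j g
    rw [hw, JR y hy, h.osym _ hy _ (hJY _)]
    exact h1.2 _ (hJY _)
  · intro h1
    refine ⟨hy, fun z hz => ?_⟩
    have h2 : (AddMonoidHom.mk' (fun b => w (h.R y) b) (fun b b' => wadd' _ b b') :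
        ((Fin h.m ⊕ Fin h.m) → RG G) →+ ZMod 2) = 0 := by
      apply hom_ext2
      intro i k
      change w (h.R y) _ = 0
      exact h1 i k
    have h3 := DFunLike.congr_fun h2 (h.R z)
    change w (h.R y) (h.R z) = 0 at h3
    rw [hw, JR y hy, JR z hz, h.osym _ hy _ hz] at h3
    exact h3

end H95GN
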