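import Pool.Agent.H49.GN.If
import Pool.Agent.H26.GN.B0

/-!
MP_78d38b_GN (helper95): part (b) of the algebra part of the necessity.
The part of the kernel of a matrix which is killed by the radical is the kernel of the matrix modulo the radical.
-/

set_option autoImplicit false
open scoped Classical

namespace H95GN

open H26GN H49GN

variable {A I : Type} [Ring A] [TR A] [TR (QJ A)] [Fintype I]

/-- `a` and `b` give the same functional. -/
private def Rl (a : A) (b : QJ A) : Prop := ∀ x : A, tau (x * a) = tau (mkA x * b)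

private theorem rl_zero : Rl (0 : A) 0 := fun x => by rw [mul_zero, mul_zero, tau_zero, tau_zero]

private theorem rl_add {a a' : A} {b b' : QJ A} (h : Rl a b) (h' : Rl a' b') :
    Rl (a + a') (b + b') := fun x => by
  rw [mul_add, mul_add, tau_add, tau_add, h x, h' x]

private theorem rl_left {a : A} {b : QJ A} (h : Rl a b) (y : A) : Rl (y * a) (mkA y * b) :=
  fun x => by rw [← mul_assoc, h, mkA_mul, mul_assoc]

private theorem rl_right {a : A} {b : QJ A} (h : Rl a b) (y : A) : Rl (a * y) (b * mkA y) :=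
  fun x => by
    rw [← mul_assoc, tau_mul_comm, ← mul_assoc, h, mkA_mul, ← mul_assoc,
      tau_mul_comm (mkA x * b), ← mul_assoc]

omit [Fintype I] in
private theorem rl_sum {s : Finset I} {a : I → A} {b : I → QJ A} (h : ∀ i, Rl (a i) (b i)) :
    Rl (∑ i ∈ s, a i) (∑ i ∈ s, b i) := by
  induction s using Finset.induction_on with
  | empty => rw [Finset.sum_empty, Finset.sum_empty]; exact rl_zero
  | insert i s hi ih => rw [Finset.sum_insert hi, Finset.sum_insert hi]; exact rl_add (h i) ih

private theorem rl_uniq {a : A} {b b' : QJ A} (h : Rl a b) (h' : Rl a b') : b = b' := by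
  apply eq_of_tau
  intro y
  obtain ⟨x, rfl⟩ := mkA_surj y
  rw [← h, ← h']

private theorem rl_uniq' {a a' : A} {b : QJ A} (h : Rl a b) (h' : Rl a' b) : a = a' := by
  apply eq_of_tau
  intro y
  rw [h, h']

private theorem rl_ex [Finite A] {a : A} (ha : ∀ j ∈ Ring.jacobson A, j * a = 0) :
    ∃ b : QJ A, Rl a b := by
  have : Finite (QJ A) := Finite.of_surjective (mkA (A := A)) mkA_surj
  have hwd : ∀ x x' : A, mkA x = mkA x' → tau (x * a) = tau (x' * a) := by
    intro x x' hx
    have h1 : x - x' ∈ Ring.jacobson A := (Ideal.Quotient.eq).1 hx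
    have h3 : x * a = (x - x') * a + x' * a := by rw [← add_mul, sub_add_cancel]
    rw [h3, ha _ h1, zero_add]
  let l : QJ A →+ ZMod 2 := AddMonoidHom.mk' (fun c => tau ((mkA_surj c).choose * a)) (by
    intro c c'
    have h1 := (mkA_surj c).choose_spec
    have h2 := (mkA_surj c').choose_spec
    have h3 := (mkA_surj (c + c')).choose_spec
    rw [← tau_add, ← add_mul]
    apply hwd
    rw [h3, mkA_add, h1, h2])
  obtain ⟨b, hb⟩ := exists_rep l
  refine ⟨b, fun x => ?_⟩
  rw [← hb]
  exact hwd _ _ (mkA_surj (mkA x)).choose_spec.symm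

private theorem rl_ex' [Finite A] (b : QJ A) :
    ∃ a : A, (∀ j ∈ Ring.jacobson A, j * a = 0) ∧ Rl a b := by
  obtain ⟨a, ha⟩ := exists_rep (AddMonoidHom.mk' (fun x : A => tau (mkA x * b)) (fun x x' => by
    rw [mkA_add, add_mul, tau_add]))
  have h : Rl a b := fun x => (ha x).symm
  refine ⟨a, fun j hj => ?_, h⟩
  apply eq_zero_of_tau
  intro x
  rw [← mul_assoc, h, mkA_mul, mkA_eq_zero.2 hj, mul_zero, zero_mul, tau_zero]

/-- Part (b). -/
theorem sbal_of_bal [Finite A] (hc : Cpt A) (M : I → I → A)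
    (hb : Bal (QJ A) (KM fun i j => mkA (M i j))) : SBal (KM M) := by
  have h1 : ∀ x : (jk (KM M) jmul : Submodule A (I → A)),
      ∃ v : (KM fun i j => mkA (M i j) : Submodule (QJ A) (I → QJ A)),
        ∀ i, Rl ((x : I → A) i) ((v : I → QJ A) i) := by
    rintro ⟨x, hxM, hxJ⟩
    choose v hv using fun i => rl_ex (a := x i) fun j hj => congrFun (hxJ j hj) i
    refine ⟨⟨v, fun j => ?_⟩, hv⟩
    have h2 : Rl (∑ i, x i * M i j) (∑ i, v i * mkA (M i j)) :=
      rl_sum fun i => rl_right (hv i) (M i j)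
    rw [hxM j] at h2
    exact rl_uniq h2 rl_zero
  have h2 : ∀ v : (KM fun i j => mkA (M i j) : Submodule (QJ A) (I → QJ A)),
      ∃ x : (jk (KM M) jmul : Submodule A (I → A)),
        ∀ i, Rl ((x : I → A) i) ((v : I → QJ A) i) := by
    rintro ⟨v, hv⟩
    choose x hxJ hx using fun i => rl_ex' (v i)
    refine ⟨⟨x, ⟨fun j => ?_, fun j hj => funext fun i => hxJ i j hj⟩⟩, hx⟩
    have h2 : Rl (∑ i, x i * M i j) (∑ i, v i * mkA (M i j)) :=
      rl_sum fun i => rl_right (hx i) (M i j)
    rw [hv j] at h2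
    exact rl_uniq' h2 rl_zero
  choose L hL using h1
  have hadd : ∀ x y, L (x + y) = L x + L y := fun x y => Subtype.ext (funext fun i =>
    rl_uniq (hL (x + y) i) (rl_add (hL x i) (hL y i)))
  have hsm : ∀ (a : A) x, L (a • x) = mkA a • L x := fun a x => Subtype.ext (funext fun i =>
    rl_uniq (hL (a • x) i) (rl_left (hL x i) a))
  have hsu : ∀ v, ∃ x, L x = v := fun v => by
    obtain ⟨x, hx⟩ := h2 v
    exact ⟨x, Subtype.ext (funext fun i => rl_uniq (hL x i) (hx i))⟩
  obtain ⟨β, hβ, hnd⟩ := hb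
  refine ⟨fun x y => β (L x) (L y), ⟨?_, ?_, ?_⟩, ?_⟩
  · intro x x' y
    rw [hadd, hβ.al]
  · intro x y y'
    rw [hadd, hβ.ar]
  · intro a x y
    rw [hsm, hsm, hβ.inv, hc]
  · intro x hx
    have h3 : L x = 0 := hnd _ fun w => by
      obtain ⟨y, rfl⟩ := hsu w
      exact hx y
    refine Subtype.ext (funext fun i => ?_)
    have h4 := hL x i
    rw [h3] at h4
    exact rl_uniq' h4 rl_zero

end H95GN
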