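import Pool.Agent.H26.GN.Df

/-!
MP_78d38b_GN (helper95): the radical of the alternating form attached to `c + c*` on a free module
(/team-store/H26_78d38b_GNnec.md, ALG part (a), (b)).
-/

set_option autoImplicit false
open scoped Classical

namespace H95GN

open H26GN

/-- The radical of the form `(x, y) ↦ tau (∑ x_i (c_ij + c_ji*) y_j*)` on the free module. -/
def Rd (B : Type) [Ring B] [TR B] {ι : Type} [Fintype ι] (c : ι → ι → B) : Submodule B (ι → B) where
  carrier := {x | ∀ j, ∑ i, x i * (c i j + st (c j i)) = 0}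
  zero_mem' := fun j => Finset.sum_eq_zero fun i _ => zero_mul _
  add_mem' := fun {x y} hx hy j => by
    have e : ∀ i, (x + y) i * (c i j + st (c j i)) =
        x i * (c i j + st (c j i)) + y i * (c i j + st (c j i)) := fun i => add_mul _ _ _
    rw [Finset.sum_congr rfl fun i _ => e i, Finset.sum_add_distrib, hx j, hy j, add_zero]
  smul_mem' := fun a x hx j => by
    have e : ∀ i, (a • x) i * (c i j + st (c j i)) = a * (x i * (c i j + st (c j i))) :=
      fun i => mul_assoc _ _ _
    rw [Finset.sum_congr rfl fun i _ => e i, ← Finset.mul_sum, hx j, mul_zero]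

theorem mem_Rd {B : Type} [Ring B] [TR B] {ι : Type} [Fintype ι] {c : ι → ι → B} {x : ι → B} :
    x ∈ Rd B c ↔ ∀ j, ∑ i, x i * (c i j + st (c j i)) = 0 := Iff.rfl

end H95GN
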